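import Mathlib
import Pool.Agent.Helper976.HW.Main

set_option autoImplicit false

namespace Pool.Agent.Results.MP_d71970_an.EighteenUp

open Matrix

/-- There is one pair of normal complex `3 × 3` matrices `A = U diag(α) U*`, `B = V diag(β) V*`
(`U`, `V` unitary) such that for every real `p ≥ 18` and every matching `σ` of the eigenvalues, the
`ℓ^p` norm of `α - σ(β)` is strictly larger than the Schatten `p`-norm of `A - B`. -/
theorem result :
    ∃ α β : Fin 3 → ℂ, ∃ U ∈ Matrix.unitaryGroup (Fin 3) ℂ, ∃ V ∈ Matrix.unitaryGroup (Fin 3) ℂ,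
      ∀ p : ℝ, 18 ≤ p → ∀ σ : Equiv.Perm (Fin 3),
        (∑ i, Real.sqrt ((Matrix.isHermitian_conjTranspose_mul_self
          (U * Matrix.diagonal α * star U - V * Matrix.diagonal β * star V)).eigenvalues i) ^ p)
            ^ (1 / p) <
          (∑ i, ‖α i - β (σ i)‖ ^ p) ^ (1 / p) :=
  ⟨Pool.Agent.Helper976.HW.al, fun i => - Pool.Agent.Helper976.HW.al i,
    Pool.Agent.Helper976.HW.U, Pool.Agent.Helper976.HW.hU, 1, one_mem _,
    fun p hp σ => Pool.Agent.Helper976.HW.main p hp σ⟩

end Pool.Agent.Results.MP_d71970_an.EighteenUp
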